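import Pool.Agent.Lib.MP_dacecb_an.Main

namespace Pool.Agent.Results.MP_dacecb_an.Endpoint

open MeasureTheory FourierTransform
open scoped ENNReal NNReal

section

variable {X : Type} [NormedAddCommGroup X] [MeasurableSpace X] [BorelSpace X] {μ : Measure X}

theorem memLp_phase (τ : ℝ) (g : Lp ℂ 2 μ) :
    MemLp (fun ξ : X => Complex.exp (-Complex.I * (τ * ‖ξ‖ ^ 2 : ℝ)) * g ξ) 2 μ :=
  MemLp.of_le (Lp.memLp g) ((Continuous.aestronglyMeasurable (by fun_prop)).mul (Lp.memLp g).1)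
    (Filter.Eventually.of_forall fun ξ => by
      rw [norm_mul, neg_mul, mul_comm Complex.I, ← neg_mul, ← Complex.ofReal_neg,
        Complex.norm_exp_ofReal_mul_I, one_mul])

/-- Multiplication of an `L²` function by `exp (-i τ |ξ|²)`. -/
noncomputable def phase (τ : ℝ) (g : Lp ℂ 2 μ) : Lp ℂ 2 μ :=
  (memLp_phase τ g).toLp fun ξ : X => Complex.exp (-Complex.I * (τ * ‖ξ‖ ^ 2 : ℝ)) * g ξ

end

section

variable {X ι : Type} [MeasurableSpace X] {μ : Measure X}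

/-- Orthonormal systems in `L²`. -/
def IsONS (f : ι → Lp ℂ 2 μ) : Prop := Orthonormal ℂ f

/-- The density `∑ |lam j| |u j|²`. -/
noncomputable def density (lam : ι → ℂ) (u : ι → Lp ℂ 2 μ) (x : X) : ℝ≥0∞ :=
  ∑' j, ‖lam j‖ₑ * ‖u j x‖ₑ ^ 2

/-- The mixed norm `L^p_t L^q_x`. -/
noncomputable def mixedNorm (μ : Measure X) (p q : ℝ≥0∞) (F : ℝ → X → ℝ≥0∞) : ℝ≥0∞ :=
  eLpNorm (fun t : ℝ => eLpNorm (F t) q μ) p volume

/-- The decreasing rearrangement of `|lam j|`, indexed from `0`. -/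
noncomputable def rearr (lam : ι → ℂ) (n : ℕ) : ℝ≥0∞ :=
  sInf {s : ℝ≥0∞ | {j | s < ‖lam j‖ₑ}.encard ≤ n}

/-- The Lorentz norm `ℓ^{α,1}`. -/
noncomputable def lorentzNorm (α : ℝ) (lam : ι → ℂ) : ℝ≥0∞ :=
  ∑' n : ℕ, ((n : ℝ≥0∞) + 1) ^ (1 / α - 1) * rearr lam n

end

section

variable (E : Type) [NormedAddCommGroup E] [InnerProductSpace ℝ E] [FiniteDimensional ℝ E]
  [MeasurableSpace E] [BorelSpace E]

/-- Complex `L²(E)` for Lebesgue measure. -/
abbrev L2 : Type := Lp ℂ 2 (volume : Measure E)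

/-- The free propagator on `L²(E)`: the Fourier multiplier with symbol `exp (-i τ |ξ|²)`.
With the Fourier convention of Mathlib, `τ = 4π² t` gives `exp (i t Δ)`. -/
noncomputable def propagator (τ : ℝ) (f : L2 E) : L2 E :=
  𝓕⁻ (phase τ (𝓕 f : L2 E) : L2 E)

/-- The endpoint orthonormal estimate on `E` with constant `C`. -/
def Estimate (d : ℕ) (κ : ℝ) (C : ℝ≥0) : Prop :=
  ∀ (ι : Type) [Countable ι] (f : ι → L2 E) (lam : ι → ℂ), IsONS f →
    mixedNorm volume (((d : ℝ≥0∞) + 1) / d) (((d : ℝ≥0∞) + 1) / (d - 1))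
      (fun t => density lam fun j => propagator E (κ * t) (f j)) ≤
    C * lorentzNorm (((d : ℝ) + 1) / d) lam

end

theorem result (d : ℕ) (hd : 2 ≤ d) (κ : ℝ) (hκ : 0 < κ) :
    ∃ C : ℝ≥0, Estimate (EuclideanSpace ℝ (Fin d)) d κ C := by
  obtain ⟨e, rfl⟩ : ∃ e, d = e + 2 := ⟨d - 2, by omega⟩
  have hC := Pool.Agent.Lib.MP_dacecb_an.cst_pos e κ
  refine ⟨(2 * Pool.Agent.Lib.MP_dacecb_an.cst e κ).toNNReal, fun ι _ f lam hf => ?_⟩
  have h := Pool.Agent.Lib.MP_dacecb_an.main e (by simp) κ hκ f hf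
    (fun t j => propagator _ (κ * t) (f j)) (fun t j => by
      rw [propagator, fourier_fourierInv_eq]
      filter_upwards [(memLp_phase (κ * t) (𝓕 (f j))).coeFn_toLp] with ξ hξ
      rw [phase, hξ, Pool.Agent.Lib.MP_dacecb_an.ph]
      congr 2
      push_cast
      ring) lam
  have e1 : (((e + 2 : ℕ) : ℝ≥0∞) + 1) / ((e + 2 : ℕ) - 1) =
      ENNReal.ofReal (((e : ℝ) + 3) / (e + 1)) := by
    have h1 : ((e + 2 : ℕ) : ℝ≥0∞) - 1 = ((e + 1 : ℕ) : ℝ≥0∞) := by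
      rw [show e + 2 = (e + 1) + 1 by ring, Nat.cast_succ, ENNReal.add_sub_cancel_right (by simp)]
    rw [h1, ENNReal.ofReal_div_of_pos (by positivity), ← Nat.cast_succ,
      ← ENNReal.ofReal_natCast, ← ENNReal.ofReal_natCast]
    congr 2
    · push_cast
      ring
    · push_cast
      ring
  have e2 : (((e + 2 : ℕ) : ℝ≥0∞) + 1) / (e + 2 : ℕ) =
      ENNReal.ofReal (((e : ℝ) + 3) / (e + 2)) := by
    rw [ENNReal.ofReal_div_of_pos (by positivity), ← Nat.cast_succ,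
      ← ENNReal.ofReal_natCast, ← ENNReal.ofReal_natCast]
    congr 2
    · push_cast
      ring
    · push_cast
      ring
  have e3 : 1 / ((((e + 2 : ℕ) : ℝ) + 1) / (e + 2 : ℕ)) = ((e : ℝ) + 2) / (e + 3) := by
    rw [one_div_div]
    push_cast
    ring
  have p1 : (0 : ℝ) < ((e : ℝ) + 3) / (e + 1) := by positivity
  have p2 : (0 : ℝ) < ((e : ℝ) + 3) / (e + 2) := by positivity
  unfold mixedNorm lorentzNorm density
  rw [e1, e2, e3, eLpNorm_eq_lintegral_rpow_enorm_toReal (by simpa using p2) ENNReal.ofReal_ne_top]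
  simp only [eLpNorm_eq_lintegral_rpow_enorm_toReal (p := ENNReal.ofReal (((e : ℝ) + 3) / (e + 1)))
    (by simpa using p1) ENNReal.ofReal_ne_top, enorm_eq_self, ENNReal.toReal_ofReal p1.le,
    ENNReal.toReal_ofReal p2.le, ← ENNReal.rpow_mul]
  have e4 : 1 / (((e : ℝ) + 3) / (e + 1)) * (((e : ℝ) + 3) / (e + 2)) = ((e : ℝ) + 1) / (e + 2) := by
    field_simp
  rw [e4]
  refine (ENNReal.rpow_le_rpow h (by positivity)).trans (le_of_eq ?_)
  rw [← ENNReal.rpow_mul, mul_one_div_cancel p2.ne', ENNReal.rpow_one]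
  rfl

end Pool.Agent.Results.MP_dacecb_an.Endpoint
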