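import Pool.Agent.Lib.MP_dacecb_an.Sharp2
import Pool.Agent.Lib.MP_dacecb_an.Sharp3

namespace Pool.Agent.Results.MP_dacecb_an.LineWeights

open MeasureTheory FourierTransform
open scoped ENNReal NNReal

/-- Complex `L²(ℝ)` for Lebesgue measure. -/
abbrev L2 : Type := Lp ℂ 2 (volume : Measure ℝ)

theorem memLp_phase (τ : ℝ) (g : L2) :
    MemLp (fun ξ : ℝ => Complex.exp (-Complex.I * (τ * ξ ^ 2 : ℝ)) * g ξ) 2 volume :=
  MemLp.of_le (Lp.memLp g) ((Continuous.aestronglyMeasurable (by fun_prop)).mul (Lp.memLp g).1)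
    (Filter.Eventually.of_forall fun ξ => by
      rw [norm_mul, neg_mul, mul_comm Complex.I, ← neg_mul, ← Complex.ofReal_neg,
        Complex.norm_exp_ofReal_mul_I, one_mul])

/-- Multiplication of an `L²` function by `exp (-i τ ξ²)`. -/
noncomputable def phase (τ : ℝ) (g : L2) : L2 :=
  (memLp_phase τ g).toLp fun ξ : ℝ => Complex.exp (-Complex.I * (τ * ξ ^ 2 : ℝ)) * g ξ

/-- The free propagator on `L²(ℝ)`: the Fourier multiplier with symbol `exp (-i τ ξ²)`.
With the Fourier convention of Mathlib, `τ = 4π² t` gives `exp (i t Δ)`. -/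
noncomputable def propagator (τ : ℝ) (f : L2) : L2 :=
  𝓕⁻ (phase τ (𝓕 f : L2) : L2)

section

variable {ι : Type}

/-- Orthonormal systems in `L²(ℝ)`. -/
def IsONS (f : ι → L2) : Prop := Orthonormal ℂ f

/-- The density `∑ |lam j| |u j|²`. -/
noncomputable def density (lam : ι → ℂ) (u : ι → L2) (x : ℝ) : ℝ≥0∞ :=
  ∑' j, ‖lam j‖ₑ * ‖u j x‖ₑ ^ 2

/-- The mixed norm `L^p_t L^q_x`. -/
noncomputable def mixedNorm (p q : ℝ≥0∞) (F : ℝ → ℝ → ℝ≥0∞) : ℝ≥0∞ :=
  eLpNorm (fun t : ℝ => eLpNorm (F t) q volume) p volume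

/-- The decreasing rearrangement of `|lam j|`, indexed from `0`. -/
noncomputable def rearr (lam : ι → ℂ) (n : ℕ) : ℝ≥0∞ :=
  sInf {s : ℝ≥0∞ | {j | s < ‖lam j‖ₑ}.encard ≤ n}

/-- The Lorentz-type norm with weights `w`. -/
noncomputable def weightNorm (w : ℕ → ℝ≥0) (lam : ι → ℂ) : ℝ≥0∞ :=
  ∑' n : ℕ, w n * rearr lam n

end

/-- The orthonormal `L²_t L^∞_x` estimate on the line with weights `w` and constant `C`. -/
def Estimate (κ : ℝ) (w : ℕ → ℝ≥0) (C : ℝ≥0) : Prop :=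
  ∀ (ι : Type) [Countable ι] (f : ι → L2) (lam : ι → ℂ), IsONS f →
    mixedNorm 2 ⊤ (fun t => density lam fun j => propagator (κ * t) (f j)) ≤ C * weightNorm w lam

theorem result (κ : ℝ) (hκ : 0 < κ) (w : ℕ → ℝ≥0) :
    (∃ C : ℝ≥0, Estimate κ w C) ↔ ∃ c : ℝ, 0 < c ∧
      ∀ N : ℕ, c * √((N : ℝ) * (1 + Real.log N)) ≤ ∑ n ∈ Finset.range N, (w n : ℝ) := by
  have hπ := Real.pi_pos
  have hu : ∀ (τ : ℝ) (f : L2), ((𝓕 (propagator τ f) : L2) : ℝ → ℂ) =ᵐ[volume]
      fun ξ => Pool.Agent.Lib.MP_dacecb_an.ph τ ξ * (𝓕 f : L2) ξ := fun τ f => by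
    rw [propagator, fourier_fourierInv_eq]
    filter_upwards [(memLp_phase τ (𝓕 f)).coeFn_toLp] with ξ hξ
    rw [phase, hξ, Pool.Agent.Lib.MP_dacecb_an.ph, ← sq_abs ξ, ← Real.norm_eq_abs]
    congr 2
    push_cast
    ring
  have hm : ∀ F : ℝ → ℝ → ℝ≥0∞,
      mixedNorm 2 ⊤ F = (∫⁻ t, essSup (F t) volume ^ 2) ^ (2 : ℝ)⁻¹ := fun F => by
    unfold mixedNorm
    rw [eLpNorm_eq_lintegral_rpow_enorm_toReal two_ne_zero ENNReal.ofNat_ne_top]
    simp only [eLpNorm_exponent_top, eLpNormEssSup_eq_essSup_enorm, enorm_eq_self,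
      ENNReal.toReal_ofNat, ENNReal.rpow_two, one_div]
  constructor
  · rintro ⟨C, hC⟩
    refine ⟨√(Real.pi / κ) / 648 / (C + 1), by positivity, fun N => ?_⟩
    rcases Nat.eq_zero_or_pos N with rfl | hN
    · simp
    obtain ⟨K, E, x, h1, h2, h3⟩ := Pool.Agent.Lib.MP_dacecb_an.kakeya_card N hN
    have h4 := hC E (fun j => Pool.Agent.Lib.MP_dacecb_an.ff j) (fun _ => 1)
      (Pool.Agent.Lib.MP_dacecb_an.ff_orthonormal.comp _ Subtype.val_injective)
    have h5 := Pool.Agent.Lib.MP_dacecb_an.lower_set κ hκ K E x h3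
      (fun t j => propagator (κ * t) (Pool.Agent.Lib.MP_dacecb_an.ff j)) fun t j => hu _ _
    rw [hm, ENNReal.rpow_inv_le_iff two_pos, ENNReal.rpow_two] at h4
    have h6 := (ENNReal.pow_le_pow_left_iff two_ne_zero).1 (h5.trans h4)
    have h7 : weightNorm w (fun _ : E => (1 : ℂ)) ≤ ∑ n ∈ Finset.range N, (w n : ℝ≥0∞) := by
      rw [weightNorm, tsum_eq_sum (s := Finset.range N)]
      · refine Finset.sum_le_sum fun n _ => mul_le_of_le_one_right' (sInf_le ?_)
        simp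
      · intro n hn
        refine mul_eq_zero_of_right _ (le_antisymm (sInf_le ?_) zero_le)
        refine (Set.encard_le_encard (Set.subset_univ _)).trans ?_
        rw [Set.encard_univ, ENat.card_eq_coe_fintype_card, Fintype.card_coe, h1]
        exact_mod_cast not_lt.1 fun h => hn (Finset.mem_range.2 h)
    have h8 := h6.trans (mul_le_mul_right h7 _)
    rw [← ENNReal.ofNNReal_finsetSum, ← ENNReal.coe_mul, ENNReal.ofReal_le_coe, NNReal.coe_mul,
      NNReal.coe_sum] at h8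
    have h9 : 0 ≤ ∑ n ∈ Finset.range N, (w n : ℝ) := by positivity
    have h10 := mul_le_mul_of_nonneg_left h2 (Real.sqrt_nonneg (Real.pi / κ))
    rw [div_mul_eq_mul_div, div_le_iff₀ (by positivity)]
    linarith
  · rintro ⟨c, hc, h⟩
    refine ⟨(11 * √(Real.pi / κ) / c).toNNReal, fun ι _ f lam hf => ?_⟩
    have h1 := Pool.Agent.Lib.MP_dacecb_an.main_w (E := ℝ) (fun n => w n / c)
      (fun n => by positivity) (fun N => by
        rw [← Finset.sum_div, le_div_iff₀ hc, mul_comm]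
        exact h N) (by simp) κ hκ f hf (fun t j => propagator (κ * t) (f j)) (fun t j => hu _ _)
      lam (rearr lam) (fun n => sInf_le_sInf fun s hs =>
        le_trans (b := ((0 : ℕ) : ℕ∞)) hs (Nat.cast_le.2 (Nat.zero_le n)))
      (Pool.Agent.Lib.MP_dacecb_an.rearr_le lam)
    rw [hm, ENNReal.rpow_inv_le_iff two_pos, ENNReal.rpow_two]
    refine h1.trans (le_of_eq ?_)
    congr 1
    rw [weightNorm, ← ENNReal.tsum_mul_left, ← ENNReal.tsum_mul_left]
    refine tsum_congr fun n => ?_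
    rw [← mul_assoc, ← mul_assoc, ← ENNReal.ofReal_mul (by positivity),
      ← ENNReal.ofReal_coe_nnreal (p := w n), ← ENNReal.ofReal.eq_1,
      ← ENNReal.ofReal_mul (by positivity)]
    congr 2
    ring

end Pool.Agent.Results.MP_dacecb_an.LineWeights
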